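import Pool.Agent.H2.RiC

namespace Pool.Agent.Results.MP_e7950b_an.RittYes

open Pool.Agent.H2.Ri
open scoped ENNReal

/-- `sup_{n ≥ 1} n ‖μ^{*n} - μ^{*(n+1)}‖_1 < ∞` -/
def Ritt (μ : ℤ → ℝ) : Prop :=
  ∃ C : ℝ, ∀ n : ℕ, 1 ≤ n → (Summable fun x => |cpow μ n x - cpow μ (n + 1) x|) ∧
    (n : ℝ) * ∑' x, |cpow μ n x - cpow μ (n + 1) x| ≤ C

theorem result (μ : ℤ → ℝ) (h : Adm μ) : Ritt μ := by
  refine ⟨32000, fun n _ => ?_⟩
  · have sm := summable_of_sum_le (fun _ => abs_nonneg _) (ritt h n)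
    refine ⟨sm, (mul_le_mul_of_nonneg_left (sm.tsum_le_of_sum_le (ritt h n))
      n.cast_nonneg).trans ?_⟩
    rw [← mul_div_assoc, div_le_iff₀ (by positivity)]
    linarith

end Pool.Agent.Results.MP_e7950b_an.RittYes
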