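import Pool.Agent.H2.RiC

namespace Pool.Agent.Results.MP_e7950b_an.WeakYes

open Pool.Agent.H2.Ri
open scoped ENNReal

/-- the maximal function of order `m` -/
noncomputable def maxFn (μ : ℤ → ℝ) (m : ℕ) (f : ℤ → ℂ) (k : ℤ) : ℝ≥0∞ :=
  ⨆ (n : ℕ) (_ : 1 ≤ n), ENNReal.ofReal ((n : ℝ) ^ m * ‖act (ker μ n m) f k‖)

/-- weak type maximal inequality of order `m` -/
def Weak (μ : ℤ → ℝ) (m : ℕ) : Prop :=
  ∃ C : ℝ, 0 < C ∧ ∀ f : ℤ → ℂ, (Summable fun x => ‖f x‖) → ∀ lam : ℝ, 0 < lam →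
    {k | ENNReal.ofReal lam ≤ maxFn μ m f k}.Finite ∧
      lam * ({k | ENNReal.ofReal lam ≤ maxFn μ m f k}.ncard : ℝ) ≤ C * ∑' x, ‖f x‖

theorem result (μ : ℤ → ℝ) (h : Adm μ) (m : ℕ) : Weak μ m := by
  refine ⟨4 * ((32000 * m) ^ m + 1), by positivity, fun f hf lam hl => ?_⟩
  · set S := {k | ENNReal.ofReal lam ≤ maxFn μ m f k} with hS
    have key : ∀ E : Finset ℤ, (E : Set ℤ) ⊆ S →
        lam * E.card ≤ 4 * ((32000 * m) ^ m + 1) * ∑' x, ‖f x‖ := by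
      refine fun E hE => weak h m f hf lam hl E fun k hk => ?_
      have : ENNReal.ofReal (lam / 2) < maxFn μ m f k :=
        lt_of_lt_of_le ((ENNReal.ofReal_lt_ofReal_iff hl).2 (half_lt_self hl)) (hE hk)
      simp only [maxFn, lt_iSup_iff] at this
      obtain ⟨n, _, hn⟩ := this
      exact ⟨n, (ENNReal.ofReal_lt_ofReal_iff_of_nonneg (half_pos hl).le).1 hn⟩
    have fin : S.Finite := by
      by_contra hi
      obtain ⟨N, hN⟩ := exists_nat_gt ((4 * ((32000 * m) ^ m + 1) * ∑' x, ‖f x‖) / lam)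
      obtain ⟨E, hE, hc⟩ := Set.Infinite.exists_subset_card_eq hi N
      have := key E hE
      rw [div_lt_iff₀ hl] at hN
      rw [hc] at this
      linarith
    refine ⟨fin, ?_⟩
    rw [Set.ncard_eq_toFinset_card S fin]
    exact key _ (by simp)

end Pool.Agent.Results.MP_e7950b_an.WeakYes
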